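import Pool.Agent.Q153.MK.Sq

/-!
# Project MK (helper255): job D2
-/

set_option autoImplicit false

open Finset

namespace Pool.Agent.Q153.MK

open Pool.Agent.Q255.RM Pool.Agent.Q255.MK

/-- the pairs with product at most `N` -/
def Ap (N : ℕ) : Finset (ℕ × ℕ) := (Icc 1 N ×ˢ Icc 1 N).filter fun p => p.1 * p.2 ≤ N

lemma D2_le (N : ℕ) : D 2 N ≤ (∑ p ∈ Ap N, (1 : ℝ) / ((p.1 : ℝ) * p.2)) ^ 2 := by
  classical
  set P := Fintype.piFinset fun _ : Fin 2 => Icc 1 N with hP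
  have h1 : D 2 N = ∑ m ∈ Icc 1 (N ^ 2), ∑ _q ∈ (P.filter fun v => ∏ i, v i = m) ×ˢ (P.filter fun v => ∏ i, v i = m),
      (1 : ℝ) / m := by
    unfold D
    refine Finset.sum_congr rfl fun m _ => ?_
    rw [Finset.sum_const, Finset.card_product, nsmul_eq_mul]
    unfold dk
    push_cast
    ring
  have h2 : (∑ p ∈ Ap N, (1 : ℝ) / ((p.1 : ℝ) * p.2)) ^ 2 =
      ∑ t ∈ Ap N ×ˢ Ap N, (1 : ℝ) / ((t.1.1 : ℝ) * t.1.2) * (1 / ((t.2.1 : ℝ) * t.2.2)) := by
    rw [_root_.sq, Finset.sum_mul_sum, ← Finset.sum_product']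
  rw [h1, h2, Finset.sum_sigma']
  have key : ∀ p : (Σ _ : ℕ, (Fin 2 → ℕ) × (Fin 2 → ℕ)),
      p ∈ (Icc 1 (N ^ 2)).sigma (fun m => (P.filter fun v => ∏ i, v i = m) ×ˢ (P.filter fun v => ∏ i, v i = m)) →
      ∃ g a b c : ℕ, 0 < g ∧ 0 < a ∧ 0 < b ∧ 0 < c ∧ Nat.gcd (g * a) (g * b) = g ∧ p.2.1 0 = g * a ∧
        p.2.1 1 = b * c ∧ p.2.2 0 = g * b ∧ p.2.2 1 = a * c ∧ p.1 = g * a * (b * c) ∧ g * a ≤ N ∧ b * c ≤ N := by
    rintro ⟨m, u, v⟩ h
    rw [Finset.mem_sigma, Finset.mem_product, Finset.mem_filter, Finset.mem_filter, hP,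
      Fintype.mem_piFinset, Fintype.mem_piFinset, Fin.prod_univ_two, Fin.prod_univ_two] at h
    obtain ⟨_, ⟨hu, hum⟩, hv, hvm⟩ := h
    simp only at hu hum hv hvm
    have u0 := Finset.mem_Icc.1 (hu 0)
    have u1 := Finset.mem_Icc.1 (hu 1)
    have v0 := Finset.mem_Icc.1 (hv 0)
    have v1 := Finset.mem_Icc.1 (hv 1)
    have hd : u 0 ∣ v 0 * v 1 := ⟨u 1, by rw [hum, hvm]⟩
    obtain ⟨g, a, b, c, hg, ha, hb, hc, hG, e1, e2, e3⟩ := gcd_decomp u0.1 v0.1 v1.1 hd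
    have e4 : u 1 = b * c := by
      have h5 : g * a * u 1 = g * a * (b * c) := by
        calc g * a * u 1 = v 0 * v 1 := by rw [← e1, hum, hvm]
          _ = g * a * (b * c) := by rw [e2, e3]; ring
      exact Nat.eq_of_mul_eq_mul_left (by positivity) h5
    refine ⟨g, a, b, c, hg, ha, hb, hc, by rw [← e1, ← e2]; exact hG, e1, e4, e2, e3, ?_, ?_, ?_⟩
    · show m = _
      rw [← hum, e1, e4]
    · rw [← e1]; exact u0.2
    · rw [← e4]; exact u1.2
  refine sum_le_of_inj _ _ _ _ (fun p => ((Nat.gcd (p.2.1 0) (p.2.2 0), p.2.1 0 / Nat.gcd (p.2.1 0) (p.2.2 0)),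
    (p.2.2 0 / Nat.gcd (p.2.1 0) (p.2.2 0), p.2.2 1 / (p.2.1 0 / Nat.gcd (p.2.1 0) (p.2.2 0))))) ?_ ?_ ?_ ?_
  · intro p hp
    obtain ⟨g, a, b, c, hg, ha, hb, hc, e0, e1, e2, e3, e4, e5, h1, h2⟩ := key p hp
    simp only [e1, e3, e4, e0, Nat.mul_div_cancel_left _ hg, Nat.mul_div_cancel_left _ ha]
    simp only [Ap, Finset.mem_product, Finset.mem_filter, Finset.mem_Icc]
    have d1 : g ≤ N := (Nat.le_mul_of_pos_right g ha).trans h1
    have d2 : a ≤ N := (Nat.le_mul_of_pos_left a hg).trans h1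
    have d3 : b ≤ N := (Nat.le_mul_of_pos_right b hc).trans h2
    have d4 : c ≤ N := (Nat.le_mul_of_pos_left c hb).trans h2
    exact ⟨⟨⟨⟨hg, d1⟩, ha, d2⟩, h1⟩, ⟨⟨hb, d3⟩, hc, d4⟩, h2⟩
  · intro p hp p' hp' e
    obtain ⟨g, a, b, c, hg, ha, hb, hc, e0, e1, e2, e3, e4, e5, h1, h2⟩ := key p hp
    obtain ⟨g', a', b', c', hg', ha', hb', hc', e0', e1', e2', e3', e4', e5', h1', h2'⟩ := key p' hp'
    simp only [e1, e3, e4, e0, Nat.mul_div_cancel_left _ hg, Nat.mul_div_cancel_left _ ha,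
      e1', e3', e4', e0', Nat.mul_div_cancel_left _ hg', Nat.mul_div_cancel_left _ ha', Prod.mk.injEq] at e
    obtain ⟨⟨rfl, rfl⟩, rfl, rfl⟩ := e
    obtain ⟨m, u, v⟩ := p
    obtain ⟨m', u', v'⟩ := p'
    simp only at e1 e2 e3 e4 e5 e1' e2' e3' e4' e5'
    have hu : u = u' := by
      funext i
      fin_cases i
      · exact e1.trans e1'.symm
      · exact e2.trans e2'.symm
    have hv : v = v' := by
      funext i
      fin_cases i
      · exact e3.trans e3'.symm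
      · exact e4.trans e4'.symm
    rw [hu, hv, e5, e5']
  · intro p hp
    obtain ⟨g, a, b, c, hg, ha, hb, hc, e0, e1, e2, e3, e4, e5, h1, h2⟩ := key p hp
    simp only [e1, e3, e4, e0, Nat.mul_div_cancel_left _ hg, Nat.mul_div_cancel_left _ ha, e5]
    push_cast
    exact le_of_eq (by rw [one_div_mul_one_div])
  · intro t _
    positivity

lemma log_step {N x : ℕ} (hx : 2 ≤ x) (hxN : x ≤ N) :
    (1 + Real.log (N / x)) / x ≤ (Real.log (N / (x - 1 : ℝ)) + Real.log (N / (x - 1 : ℝ)) ^ 2 / 2) -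
      (Real.log (N / x) + Real.log (N / x) ^ 2 / 2) := by
  have hx0 : (0 : ℝ) < x := by positivity
  have hx1 : (0 : ℝ) < (x : ℝ) - 1 := by
    have : (2 : ℝ) ≤ x := by exact_mod_cast hx
    linarith
  have hN0 : (0 : ℝ) < N := by
    have : (x : ℝ) ≤ N := by exact_mod_cast hxN
    linarith
  set A := Real.log (N / x) with hA
  have hA0 : 0 ≤ A := by
    refine Real.log_nonneg ?_
    rw [le_div_iff₀ hx0, one_mul]
    exact_mod_cast hxN
  set d := Real.log (x / (x - 1 : ℝ)) with hd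
  have hd1 : 1 / (x : ℝ) ≤ d := by
    have h1 : Real.log ((x - 1 : ℝ) / x) ≤ (x - 1 : ℝ) / x - 1 := Real.log_le_sub_one_of_pos (by positivity)
    have h2 : Real.log ((x - 1 : ℝ) / x) = -d := by
      rw [hd, ← Real.log_inv, inv_div]
    have h3 : (x - 1 : ℝ) / x - 1 = -(1 / x) := by
      field_simp
      ring
    rw [h2, h3] at h1
    linarith
  have hB : Real.log (N / (x - 1 : ℝ)) = A + d := by
    rw [hA, hd, ← Real.log_mul (by positivity) (by positivity)]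
    congr 1
    field_simp
  rw [hB]
  have hd0 : 0 ≤ d := le_trans (by positivity) hd1
  calc (1 + A) / x = (1 + A) * (1 / x) := by ring
    _ ≤ (1 + A) * d := mul_le_mul_of_nonneg_left hd1 (by linarith)
    _ ≤ _ := by nlinarith [sq_nonneg d]

lemma log_sum (N : ℕ) (hN : 1 ≤ N) :
    ∑ x ∈ Icc 1 N, (1 + Real.log (N / x)) / x ≤ 1 + 2 * Real.log N + Real.log N ^ 2 / 2 := by
  have hN0 : (0 : ℝ) < N := by exact_mod_cast hN
  have key : ∀ M : ℕ, 1 ≤ M → M ≤ N → ∑ x ∈ Icc 1 M, (1 + Real.log (N / x)) / x ≤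
      1 + 2 * Real.log N + Real.log N ^ 2 / 2 - (Real.log (N / M) + Real.log (N / M) ^ 2 / 2) := by
    intro M hM
    induction M, hM using Nat.le_induction with
    | base =>
      intro _
      simp
      linarith
    | succ M hM ih =>
      intro h
      rw [Finset.sum_Icc_succ_top (by omega)]
      have h1 := ih (by omega)
      have h2 := log_step (N := N) (x := M + 1) (by omega) h
      rw [show (((M + 1 : ℕ) : ℝ) - 1) = (M : ℝ) by push_cast; ring] at h2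
      linarith
  have h1 := key N hN le_rfl
  rw [div_self hN0.ne', Real.log_one] at h1
  simpa using h1

lemma Ap_sum (N : ℕ) (hN : 1 ≤ N) :
    ∑ p ∈ Ap N, (1 : ℝ) / ((p.1 : ℝ) * p.2) ≤ 1 + 2 * Real.log N + Real.log N ^ 2 / 2 := by
  have e : ∑ p ∈ Ap N, (1 : ℝ) / ((p.1 : ℝ) * p.2) =
      ∑ x ∈ Icc 1 N, ∑ y ∈ Icc 1 (N / x), (1 : ℝ) / ((x : ℝ) * y) := by
    unfold Ap
    rw [Finset.sum_filter, Finset.sum_product]
    refine Finset.sum_congr rfl fun x hx => ?_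
    have hx1 := (Finset.mem_Icc.1 hx).1
    rw [← Finset.sum_filter]
    refine Finset.sum_congr ?_ fun y _ => rfl
    ext y
    rw [Finset.mem_filter, Finset.mem_Icc, Finset.mem_Icc, Nat.le_div_iff_mul_le hx1, mul_comm y x]
    constructor
    · rintro ⟨⟨h1, _⟩, h2⟩
      exact ⟨h1, h2⟩
    · rintro ⟨h1, h2⟩
      exact ⟨⟨h1, (Nat.le_mul_of_pos_left y hx1).trans h2⟩, h2⟩
  rw [e]
  refine (Finset.sum_le_sum fun x hx => ?_).trans (log_sum N hN)
  · have hx' := Finset.mem_Icc.1 hx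
    have hx0 : (0 : ℝ) < x := by exact_mod_cast hx'.1
    have h1 : ∑ y ∈ Icc 1 (N / x), (1 : ℝ) / ((x : ℝ) * y) = (harmonic (N / x) : ℝ) / x := by
      rw [harmonic_eq_sum_Icc]
      push_cast
      rw [Finset.sum_div]
      refine Finset.sum_congr rfl fun y _ => ?_
      rw [one_div, mul_inv, div_eq_mul_inv, mul_comm]
    rw [h1]
    refine div_le_div_of_nonneg_right ?_ hx0.le
    have h2 := harmonic_floor_le_one_add_log ((N : ℝ) / x) (by
      rw [le_div_iff₀ hx0, one_mul]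
      exact_mod_cast hx'.2)
    rwa [Nat.floor_div_natCast, Nat.floor_natCast] at h2

/-- job D2 -/
theorem d2 : S_D2 := by
  refine ⟨⌈Real.exp 11⌉₊, fun N hN => ?_⟩
  have hNe : Real.exp 11 ≤ N := (Nat.le_ceil _).trans (by exact_mod_cast hN)
  have hL : 11 ≤ Real.log N := by
    rw [← Real.log_exp 11]
    exact Real.log_le_log (Real.exp_pos _) hNe
  have hN1 : 1 ≤ N := by
    have : (0 : ℝ) < N := (Real.exp_pos _).trans_le hNe
    exact_mod_cast this
  refine (D2_le N).trans ?_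
  have h1 := Ap_sum N hN1
  have h0 : 0 ≤ ∑ p ∈ Ap N, (1 : ℝ) / ((p.1 : ℝ) * p.2) := Finset.sum_nonneg fun p _ => by positivity
  set L := Real.log N
  have h2 : 1 + 2 * L + L ^ 2 / 2 ≤ 7 / 10 * L ^ 2 := by nlinarith
  calc (∑ p ∈ Ap N, (1 : ℝ) / ((p.1 : ℝ) * p.2)) ^ 2 ≤ (7 / 10 * L ^ 2) ^ 2 :=
        pow_le_pow_left₀ h0 (h1.trans h2) 2
    _ = 49 / 100 * L ^ 4 := by ring
    _ ≤ 1 / 2 * L ^ 4 := by
        have : 0 ≤ L ^ 4 := by positivity
        linarith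

end Pool.Agent.Q153.MK
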