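import Pool.Agent.Q153.MK.Sq

/-!
# Project MK (helper255): job DKB
-/

set_option autoImplicit false

open Finset

namespace Pool.Agent.Q153.MK

open Pool.Agent.Q255.RM Pool.Agent.Q255.MK

lemma ak_one_le (k : ℕ) : ak k 1 ≤ 1 := by
  have h := dk_le k 1 (m := 1) one_ne_zero
  simpa [ak] using h

lemma ak_prime_le (k : ℕ) {p : ℕ} (hp : p.Prime) : ak k p ≤ k := by
  induction k with
  | zero =>
    rw [ak_zero, if_neg hp.one_lt.ne']
  | succ k ih =>
    rw [ak_succ k hp.one_lt.le, hp.sum_divisors, Nat.div_self hp.pos, Nat.div_one]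
    have := ak_one_le k
    omega

lemma ak_prod_le (k : ℕ) {ι : Type*} (S : Finset ι) (F : ι → ℕ) (hF : ∀ i ∈ S, 1 ≤ F i) :
    ak k (∏ i ∈ S, F i) ≤ ∏ i ∈ S, ak k (F i) := by
  classical
  induction S using Finset.induction_on with
  | empty => simpa using ak_one_le k
  | insert a S ha ih =>
    rw [Finset.prod_insert ha, Finset.prod_insert ha]
    have h1 := ih fun i hi => hF i (Finset.mem_insert_of_mem hi)
    have h2 : 1 ≤ ∏ i ∈ S, F i := Finset.one_le_prod' fun i hi => hF i (Finset.mem_insert_of_mem hi)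
    exact (ak_mul_le k (hF a (Finset.mem_insert_self _ _)) h2).trans (Nat.mul_le_mul_left _ h1)

lemma ak_pow_le (k : ℕ) {p : ℕ} (hp : p.Prime) (a : ℕ) : ak k (p ^ a) ≤ k ^ a := by
  induction a with
  | zero => simpa using ak_one_le k
  | succ a ih =>
    rw [pow_succ, pow_succ]
    exact (ak_mul_le k (Nat.pos_of_ne_zero (pow_ne_zero _ hp.ne_zero)) hp.pos).trans
      (Nat.mul_le_mul ih (ak_prime_le k hp))

lemma ak_pow_le' (k : ℕ) {p : ℕ} (hp : p.Prime) (a : ℕ) : ak k (p ^ a) ≤ (a + 1) ^ k := by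
  have h := dk_le k (p ^ a) (m := p ^ a) (pow_ne_zero _ hp.ne_zero)
  rwa [Nat.divisors_prime_pow hp, Finset.card_map, Finset.card_range] at h

/-- the bound: `d_k(m) ≤ (1 + log₂ m)^(k y) m^δ` if `k ≤ y^δ` -/
lemma ak_le (k y m : ℕ) (δ : ℝ) (hm : 1 ≤ m) (hδ : 0 ≤ δ) (hy : (k : ℝ) ≤ (y : ℝ) ^ δ) :
    (ak k m : ℝ) ≤ ((1 + Nat.log 2 m : ℕ) : ℝ) ^ (k * y) * (m : ℝ) ^ δ := by
  classical
  have hm0 : m ≠ 0 := by omega
  have hprod : ∏ p ∈ m.primeFactors, p ^ m.factorization p = m := Nat.prod_factorization_pow_eq_self hm0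
  have h1 : ak k m ≤ ∏ p ∈ m.primeFactors, ak k (p ^ m.factorization p) := by
    conv_lhs => rw [← hprod]
    exact ak_prod_le k _ _ fun p hp =>
      Nat.pos_of_ne_zero (pow_ne_zero _ (Nat.prime_of_mem_primeFactors hp).ne_zero)
  have h2 : (ak k m : ℝ) ≤ ∏ p ∈ m.primeFactors, (ak k (p ^ m.factorization p) : ℝ) := by exact_mod_cast h1
  set B : ℝ := ((1 + Nat.log 2 m : ℕ) : ℝ) ^ k with hB
  have hB1 : 1 ≤ B := one_le_pow₀ (by push_cast; linarith [Nat.cast_nonneg (α := ℝ) (Nat.log 2 m)])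
  have h3 : ∀ p ∈ m.primeFactors, (ak k (p ^ m.factorization p) : ℝ) ≤
      (if p < y then B else 1) * ((p ^ m.factorization p : ℕ) : ℝ) ^ δ := by
    intro p hp
    have hpp := Nat.prime_of_mem_primeFactors hp
    have hone : 1 ≤ ((p ^ m.factorization p : ℕ) : ℝ) ^ δ := by
      refine Real.one_le_rpow ?_ hδ
      exact_mod_cast Nat.pos_of_ne_zero (pow_ne_zero _ hpp.ne_zero)
    split_ifs with hpy
    · have h4 : m.factorization p ≤ Nat.log 2 m := by
        refine Nat.le_log_of_pow_le (by norm_num) ?_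
        calc 2 ^ m.factorization p ≤ p ^ m.factorization p := Nat.pow_le_pow_left hpp.two_le _
          _ ≤ m := Nat.ordProj_le p hm0
      have h5 : (ak k (p ^ m.factorization p) : ℝ) ≤ B := by
        rw [hB]
        have := (ak_pow_le' k hpp (m.factorization p)).trans
          (Nat.pow_le_pow_left (show m.factorization p + 1 ≤ 1 + Nat.log 2 m by omega) k)
        exact_mod_cast this
      calc (ak k (p ^ m.factorization p) : ℝ) ≤ B * 1 := by rw [mul_one]; exact h5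
        _ ≤ _ := mul_le_mul_of_nonneg_left hone (by linarith)
    · rw [one_mul]
      have h6 : (k : ℝ) ≤ (p : ℝ) ^ δ :=
        hy.trans (Real.rpow_le_rpow (Nat.cast_nonneg _) (by exact_mod_cast not_lt.1 hpy) hδ)
      calc (ak k (p ^ m.factorization p) : ℝ) ≤ (k : ℝ) ^ m.factorization p := by
            exact_mod_cast ak_pow_le k hpp _
        _ ≤ ((p : ℝ) ^ δ) ^ m.factorization p := pow_le_pow_left₀ (Nat.cast_nonneg _) h6 _
        _ = ((p ^ m.factorization p : ℕ) : ℝ) ^ δ := by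
            rw [← Real.rpow_natCast, ← Real.rpow_mul (Nat.cast_nonneg _), mul_comm,
              Real.rpow_mul (Nat.cast_nonneg _), Real.rpow_natCast]
            push_cast
            rfl
  calc (ak k m : ℝ) ≤ ∏ p ∈ m.primeFactors, (ak k (p ^ m.factorization p) : ℝ) := h2
    _ ≤ ∏ p ∈ m.primeFactors, ((if p < y then B else 1) * ((p ^ m.factorization p : ℕ) : ℝ) ^ δ) :=
        Finset.prod_le_prod (fun p _ => Nat.cast_nonneg _) h3
    _ = (∏ p ∈ m.primeFactors, (if p < y then B else 1)) *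
        ∏ p ∈ m.primeFactors, ((p ^ m.factorization p : ℕ) : ℝ) ^ δ := Finset.prod_mul_distrib
    _ = (∏ p ∈ m.primeFactors, (if p < y then B else 1)) * (m : ℝ) ^ δ := by
        congr 1
        rw [Real.finsetProd_rpow _ _ fun p _ => Nat.cast_nonneg _, ← Nat.cast_prod, hprod]
    _ ≤ B ^ y * (m : ℝ) ^ δ := by
        refine mul_le_mul_of_nonneg_right ?_ (Real.rpow_nonneg (Nat.cast_nonneg _) _)
        rw [Finset.prod_ite, Finset.prod_const, Finset.prod_const_one, mul_one]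
        refine pow_le_pow_right₀ hB1 ?_
        calc (m.primeFactors.filter fun p => p < y).card ≤ (Finset.range y).card := by
              refine Finset.card_le_card fun p hp => ?_
              exact Finset.mem_range.2 (Finset.mem_filter.1 hp).2
          _ = y := Finset.card_range y
    _ = _ := by rw [hB, ← pow_mul]

/-- the size of the small primes -/
lemma small (u : ℝ) (hu : 1210 ≤ u) (k : ℕ) (hk : 1 ≤ k) (hku : (k : ℝ) ≤ 3 * u ^ 2) :
    400 * u ^ 4 * ((k * k ^ (200 * k) : ℕ) : ℝ) ≤ Real.exp (u ^ 4) := by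
  have hu0 : 0 < u := by linarith
  have hk0 : (0 : ℝ) < k := by exact_mod_cast hk
  have hk1 : (1 : ℝ) ≤ k := by exact_mod_cast hk
  have h1 : u ≤ Real.exp u := by linarith [Real.add_one_le_exp u]
  have h2 : 400 * u ^ 4 ≤ Real.exp (5 * u) := by
    calc 400 * u ^ 4 ≤ u * u ^ 4 := by
          have : 0 ≤ u ^ 4 := by positivity
          nlinarith
      _ = u ^ 5 := by ring
      _ ≤ Real.exp u ^ 5 := pow_le_pow_left₀ hu0.le h1 5
      _ = Real.exp (5 * u) := by rw [← Real.exp_nat_mul]; norm_num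
  have h3 : Real.log k ≤ 2 * u := by
    have h31 : Real.log k ≤ Real.log (3 * u ^ 2) := Real.log_le_log hk0 hku
    rw [Real.log_mul (by norm_num) (by positivity), Real.log_pow] at h31
    have h32 : Real.log 3 ≤ 3 - 1 := Real.log_le_sub_one_of_pos (by norm_num)
    have h33 := Real.log_le_sub_one_of_pos hu0
    push_cast at h31
    linarith
  have h4 : ((k * k ^ (200 * k) : ℕ) : ℝ) ≤ Real.exp (1202 * u ^ 3) := by
    have h41 : ((k * k ^ (200 * k) : ℕ) : ℝ) = Real.exp ((200 * k + 1) * Real.log k) := by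
      rw [show ((200 : ℝ) * k + 1) * Real.log k = ((200 * k + 1 : ℕ) : ℝ) * Real.log k by push_cast; ring,
        Real.exp_nat_mul, Real.exp_log hk0]
      push_cast
      ring
    rw [h41]
    refine Real.exp_le_exp.2 ?_
    have h42 : 0 ≤ Real.log k := Real.log_nonneg hk1
    calc (200 * (k : ℝ) + 1) * Real.log k ≤ (601 * u ^ 2) * (2 * u) := by
          refine mul_le_mul ?_ h3 h42 (by positivity)
          nlinarith
      _ = 1202 * u ^ 3 := by ring
  calc 400 * u ^ 4 * ((k * k ^ (200 * k) : ℕ) : ℝ) ≤ Real.exp (5 * u) * Real.exp (1202 * u ^ 3) :=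
        mul_le_mul h2 h4 (Nat.cast_nonneg _) (Real.exp_pos _).le
    _ = Real.exp (5 * u + 1202 * u ^ 3) := by rw [Real.exp_add]
    _ ≤ Real.exp (u ^ 4) := by
        refine Real.exp_le_exp.2 ?_
        have h5 : 1210 * u ^ 3 ≤ u ^ 4 := by
          have : 0 ≤ u ^ 3 := by positivity
          nlinarith
        have h6 : u ≤ u ^ 3 := by
          have : 1 ≤ u ^ 2 := by nlinarith
          nlinarith
        linarith

lemma log_bound (k N m : ℕ) (u : ℝ) (hu : 1210 ≤ u) (hN : Real.log N = Real.exp (u ^ 4))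
    (hku : (k : ℝ) ≤ 3 * u ^ 2) (hm : 1 ≤ m) (hmN : m ≤ N ^ k) :
    ((1 + Nat.log 2 m : ℕ) : ℝ) ≤ Real.exp (2 * u ^ 4) := by
  have hu0 : 0 < u := by linarith
  have hm0 : (0 : ℝ) < m := by exact_mod_cast hm
  have h1 : (Nat.log 2 m : ℝ) * Real.log 2 ≤ Real.log m := by
    rw [← Real.log_pow]
    refine Real.log_le_log (by positivity) ?_
    exact_mod_cast Nat.pow_log_le_self 2 (by omega)
  have h2 : Real.log m ≤ k * Real.exp (u ^ 4) := by
    rw [← hN, ← Real.log_pow]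
    refine Real.log_le_log hm0 ?_
    exact_mod_cast hmN
  have h3 : (1 : ℝ) / 2 < Real.log 2 := by linarith [Real.log_two_gt_d9]
  have h4 : (Nat.log 2 m : ℝ) ≤ 2 * (k * Real.exp (u ^ 4)) := by
    have : (0 : ℝ) ≤ Nat.log 2 m := Nat.cast_nonneg _
    nlinarith
  have h5 : u ^ 4 + 1 ≤ Real.exp (u ^ 4) := Real.add_one_le_exp _
  have h6 : 7 * u ^ 2 ≤ u ^ 4 := by
    have : 7 ≤ u ^ 2 := by nlinarith
    nlinarith [sq_nonneg u]
  have h7 : 1 ≤ u ^ 2 := by nlinarith
  have h8 : 0 < Real.exp (u ^ 4) := Real.exp_pos _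
  have h9 : 1 ≤ Real.exp (u ^ 4) := Real.one_le_exp (by positivity)
  push_cast
  calc (1 : ℝ) + Nat.log 2 m ≤ 1 + 2 * (3 * u ^ 2 * Real.exp (u ^ 4)) := by
        have := mul_le_mul_of_nonneg_right hku h8.le
        linarith
    _ ≤ 7 * u ^ 2 * Real.exp (u ^ 4) := by nlinarith
    _ ≤ Real.exp (u ^ 4) * Real.exp (u ^ 4) := mul_le_mul_of_nonneg_right (by linarith) h8.le
    _ = Real.exp (2 * u ^ 4) := by rw [← Real.exp_add]; congr 1; ring

/-- job DKB -/
theorem dkb : S_DKB := by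
  refine ⟨⌈Real.exp (Real.exp (1210 ^ 4))⌉₊, fun N hN k hk m hm => ?_⟩
  rw [Finset.mem_Icc] at hm
  have hNe : Real.exp (Real.exp (1210 ^ 4)) ≤ N := (Nat.le_ceil _).trans (by exact_mod_cast hN)
  have hN0 : (0 : ℝ) < N := (Real.exp_pos _).trans_le hNe
  have hL : Real.exp (1210 ^ 4) ≤ Real.log N := by
    rw [← Real.log_exp (Real.exp (1210 ^ 4))]
    exact Real.log_le_log (Real.exp_pos _) hNe
  have hL0 : 0 < Real.log N := (Real.exp_pos _).trans_le hL
  have hl : (1210 : ℝ) ^ 4 ≤ Real.log (Real.log N) := by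
    rw [← Real.log_exp ((1210 : ℝ) ^ 4)]
    exact Real.log_le_log (Real.exp_pos _) hL
  set ℓ := Real.log (Real.log N) with hℓ
  have hℓ0 : 0 ≤ ℓ := by linarith [show (0 : ℝ) ≤ 1210 ^ 4 by positivity]
  set u := Real.sqrt (Real.sqrt ℓ) with hu
  have hu2 : u ^ 2 = Real.sqrt ℓ := Real.sq_sqrt (Real.sqrt_nonneg _)
  have hu4 : u ^ 4 = ℓ := by
    rw [show u ^ 4 = (u ^ 2) ^ 2 by ring, hu2, Real.sq_sqrt hℓ0]
  have hu1 : 1210 ≤ u := by
    rw [hu]
    refine Real.le_sqrt_of_sq_le (Real.le_sqrt_of_sq_le ?_)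
    calc ((1210 : ℝ) ^ 2) ^ 2 = 1210 ^ 4 := by ring
      _ ≤ ℓ := hl
  have hlogN : Real.log N = Real.exp (u ^ 4) := by rw [hu4, hℓ, Real.exp_log hL0]
  have hku : (k : ℝ) ≤ 3 * u ^ 2 := by
    rw [← hu2] at hk
    nlinarith
  have hN1 : (1 : ℝ) ≤ N := by
    have := Real.one_le_exp (x := Real.exp ((1210 : ℝ) ^ 4)) (Real.exp_pos _).le
    linarith
  have hdk : (dk k N m : ℝ) ≤ ak k m := by exact_mod_cast dk_le_ak k N m hm.1
  refine hdk.trans ?_
  rcases Nat.eq_zero_or_pos k with h0 | hkpos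
  · subst h0
    have h1 : (ak 0 m : ℝ) ≤ 1 := by
      rw [ak_zero]
      split_ifs <;> norm_num
    exact h1.trans (Real.one_le_rpow hN1 (by norm_num))
  · have hk0 : (0 : ℝ) < k := by exact_mod_cast hkpos
    have h200 : ((k ^ (200 * k) : ℕ) : ℝ) ^ (1 / (200 * k) : ℝ) = k := by
      have e : ((k ^ (200 * k) : ℕ) : ℝ) = (k : ℝ) ^ ((200 : ℝ) * k) := by
        rw [show (200 : ℝ) * k = ((200 * k : ℕ) : ℝ) by push_cast; ring, Real.rpow_natCast]
        push_cast
        rfl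
      rw [e, ← Real.rpow_mul hk0.le, mul_one_div_cancel (by positivity), Real.rpow_one]
    have h1 := ak_le k (k ^ (200 * k)) m (1 / (200 * k)) hm.1 (by positivity) h200.ge
    refine h1.trans ?_
    have h2 : (m : ℝ) ^ (1 / (200 * k) : ℝ) ≤ (N : ℝ) ^ (1 / 200 : ℝ) := by
      calc (m : ℝ) ^ (1 / (200 * k) : ℝ) ≤ ((N : ℝ) ^ k) ^ (1 / (200 * k) : ℝ) := by
            refine Real.rpow_le_rpow (Nat.cast_nonneg _) ?_ (by positivity)
            exact_mod_cast hm.2
        _ = (N : ℝ) ^ (1 / 200 : ℝ) := by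
            rw [← Real.rpow_natCast, ← Real.rpow_mul hN0.le]
            congr 1
            field_simp
    have h3 : (((1 + Nat.log 2 m : ℕ) : ℝ)) ^ (k * k ^ (200 * k)) ≤ (N : ℝ) ^ (1 / 200 : ℝ) := by
      calc (((1 + Nat.log 2 m : ℕ) : ℝ)) ^ (k * k ^ (200 * k))
          ≤ Real.exp (2 * u ^ 4) ^ (k * k ^ (200 * k)) :=
            pow_le_pow_left₀ (Nat.cast_nonneg _) (log_bound k N m u hu1 hlogN hku hm.1 hm.2) _
        _ = Real.exp (((k * k ^ (200 * k) : ℕ) : ℝ) * (2 * u ^ 4)) := by rw [Real.exp_nat_mul]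
        _ ≤ Real.exp (Real.log N * (1 / 200)) := by
            refine Real.exp_le_exp.2 ?_
            have := small u hu1 k hkpos hku
            rw [hlogN]
            nlinarith
        _ = (N : ℝ) ^ (1 / 200 : ℝ) := by rw [Real.rpow_def_of_pos hN0]
    calc _ ≤ (N : ℝ) ^ (1 / 200 : ℝ) * (N : ℝ) ^ (1 / 200 : ℝ) :=
          mul_le_mul h3 h2 (Real.rpow_nonneg (Nat.cast_nonneg _) _) (Real.rpow_nonneg (Nat.cast_nonneg _) _)
      _ = (N : ℝ) ^ (1 / 100 : ℝ) := by
          rw [← Real.rpow_add hN0]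
          norm_num

end Pool.Agent.Q153.MK
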