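import Pool.Agent.Q255.MK.Stm

/-!
# Project MK (helper255): job SQ
-/

set_option autoImplicit false

open Finset

namespace Pool.Agent.Q153.MK

open Pool.Agent.Q255.RM Pool.Agent.Q255.MK

/-! ## sums of powers -/

/-- the telescoping inequality -/
lemma tel {α : ℝ} (hα : 0 < α) {n : ℕ} (hn : 1 ≤ n) :
    ((n + 1 : ℕ) : ℝ) ^ (-(1 + α)) ≤ ((n : ℝ) ^ (-α) - ((n + 1 : ℕ) : ℝ) ^ (-α)) / α := by
  have hn0 : (0 : ℝ) < n := by exact_mod_cast hn
  have hn1 : (0 : ℝ) < ((n + 1 : ℕ) : ℝ) := by positivity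
  rw [le_div_iff₀ hα]
  have e1 : ((n + 1 : ℕ) : ℝ) ^ (-(1 + α)) = ((n + 1 : ℕ) : ℝ) ^ (-α) * ((n + 1 : ℕ) : ℝ)⁻¹ := by
    rw [show -(1 + α) = -α + (-1 : ℝ) by ring, Real.rpow_add hn1, Real.rpow_neg_one]
  have e2 : (n : ℝ) ^ (-α) = ((n + 1 : ℕ) : ℝ) ^ (-α) * ((n : ℝ) / ((n + 1 : ℕ) : ℝ)) ^ (-α) := by
    rw [← Real.mul_rpow hn1.le (by positivity)]
    congr 1
    field_simp
  have e3 : 1 + α * ((n + 1 : ℕ) : ℝ)⁻¹ ≤ ((n : ℝ) / ((n + 1 : ℕ) : ℝ)) ^ (-α) := by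
    have hq : (0 : ℝ) < (n : ℝ) / ((n + 1 : ℕ) : ℝ) := by positivity
    rw [Real.rpow_def_of_pos hq]
    have h1 : Real.log ((n : ℝ) / ((n + 1 : ℕ) : ℝ)) ≤ (n : ℝ) / ((n + 1 : ℕ) : ℝ) - 1 :=
      Real.log_le_sub_one_of_pos hq
    have h2 : (n : ℝ) / ((n + 1 : ℕ) : ℝ) - 1 = -((n + 1 : ℕ) : ℝ)⁻¹ := by
      field_simp
      push_cast
      ring
    rw [h2] at h1
    have h3 : α * ((n + 1 : ℕ) : ℝ)⁻¹ ≤ Real.log ((n : ℝ) / ((n + 1 : ℕ) : ℝ)) * -α := by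
      nlinarith
    have h4 := Real.add_one_le_exp (Real.log ((n : ℝ) / ((n + 1 : ℕ) : ℝ)) * -α)
    linarith
  rw [e2, e1]
  have h5 : 0 < ((n + 1 : ℕ) : ℝ) ^ (-α) := Real.rpow_pos_of_pos hn1 _
  nlinarith [mul_le_mul_of_nonneg_left e3 h5.le]

lemma zsum (M : ℕ) {s : ℝ} (hs : 1 < s) : ∑ n ∈ Icc 1 M, (n : ℝ) ^ (-s) ≤ 1 + 1 / (s - 1) := by
  have hα : 0 < s - 1 := by linarith
  have hsα : s = 1 + (s - 1) := by ring
  have key : ∀ M : ℕ, 1 ≤ M → ∑ n ∈ Icc 1 M, (n : ℝ) ^ (-s) ≤ 1 + (1 - (M : ℝ) ^ (-(s - 1))) / (s - 1) := by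
    intro M hM
    induction M, hM using Nat.le_induction with
    | base => simp
    | succ M hM ih =>
      rw [Finset.sum_Icc_succ_top (by omega)]
      have h := tel hα hM
      rw [← hsα] at h
      calc _ ≤ (1 + (1 - (M : ℝ) ^ (-(s - 1))) / (s - 1)) +
          ((M : ℝ) ^ (-(s - 1)) - ((M + 1 : ℕ) : ℝ) ^ (-(s - 1))) / (s - 1) := add_le_add ih h
        _ = _ := by ring
  rcases Nat.eq_zero_or_pos M with h | h
  · subst h
    simp only [Finset.Icc_eq_empty_of_lt zero_lt_one, Finset.sum_empty]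
    positivity
  · refine (key M h).trans ?_
    gcongr
    linarith [Real.rpow_nonneg (Nat.cast_nonneg (α := ℝ) M) (-(s - 1))]

/-! ## sums and injections -/

lemma sum_le_of_inj {ι κ R : Type*} [AddCommMonoid R] [PartialOrder R] [IsOrderedAddMonoid R]
    (S : Finset ι) (T : Finset κ) (F : ι → R) (G : κ → R) (i : ι → κ)
    (hi : ∀ s ∈ S, i s ∈ T) (hinj : Set.InjOn i S) (hle : ∀ s ∈ S, F s ≤ G (i s)) (hG : ∀ t ∈ T, 0 ≤ G t) :
    ∑ s ∈ S, F s ≤ ∑ t ∈ T, G t := by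
  classical
  calc ∑ s ∈ S, F s ≤ ∑ s ∈ S, G (i s) := Finset.sum_le_sum hle
    _ = ∑ t ∈ S.image i, G t := (Finset.sum_image hinj).symm
    _ ≤ ∑ t ∈ T, G t := by
      refine Finset.sum_le_sum_of_subset_of_nonneg ?_ fun t ht _ => hG t ht
      intro t ht
      obtain ⟨s, hs, rfl⟩ := Finset.mem_image.1 ht
      exact hi s hs

/-! ## the numbers `ak` -/

lemma dk_le_ak (k N m : ℕ) (hm : 1 ≤ m) : dk k N m ≤ ak k m := by
  unfold ak dk
  refine Finset.card_le_card fun v hv => ?_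
  rw [Finset.mem_filter, Fintype.mem_piFinset] at hv ⊢
  refine ⟨fun i => ?_, hv.2⟩
  have h1 := Finset.mem_Icc.1 (hv.1 i)
  have h2 : v i ∣ m := hv.2 ▸ Finset.dvd_prod_of_mem v (Finset.mem_univ i)
  exact Finset.mem_Icc.2 ⟨h1.1, Nat.le_of_dvd hm h2⟩

lemma ak_zero (m : ℕ) : ak 0 m = if m = 1 then 1 else 0 := by
  unfold ak dk
  by_cases h : m = 1
  · simp [h]
  · rw [if_neg h, Finset.card_eq_zero, Finset.filter_eq_empty_iff]
    intro v _ hv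
    rw [Finset.univ_eq_empty, Finset.prod_empty] at hv
    exact h hv.symm

lemma ak_succ (k : ℕ) {m : ℕ} (hm : 1 ≤ m) : ak (k + 1) m = ∑ x ∈ m.divisors, ak k (m / x) := by
  classical
  have hmaps : Set.MapsTo (fun v : Fin (k + 1) → ℕ => v 0)
      (((Fintype.piFinset fun _ : Fin (k + 1) => Icc 1 m).filter fun v => ∏ i, v i = m : Finset _) : Set _)
      (m.divisors : Set ℕ) := by
    intro v hv
    rw [Finset.mem_coe, Finset.mem_filter] at hv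
    rw [Finset.mem_coe, Nat.mem_divisors]
    exact ⟨hv.2 ▸ Finset.dvd_prod_of_mem v (Finset.mem_univ 0), by omega⟩
  have h0 : ak (k + 1) m = ∑ x ∈ m.divisors,
      ((((Fintype.piFinset fun _ : Fin (k + 1) => Icc 1 m).filter fun v => ∏ i, v i = m).filter
        fun v => v 0 = x).card) := by
    unfold ak dk
    exact Finset.card_eq_sum_card_fiberwise hmaps
  rw [h0]
  refine Finset.sum_congr rfl fun x hx => ?_
  have hxm : x ∣ m := (Nat.mem_divisors.1 hx).1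
  have hx0 : 1 ≤ x := Nat.pos_of_mem_divisors hx
  have hmx : x * (m / x) = m := Nat.mul_div_cancel' hxm
  have hq : 1 ≤ m / x := Nat.div_pos (Nat.le_of_dvd hm hxm) hx0
  unfold ak dk
  refine Finset.card_nbij' (fun v => Fin.tail v) (fun w => Fin.cons x w) ?_ ?_ ?_ ?_
  · intro v hv
    rw [Finset.mem_coe, Finset.mem_filter, Finset.mem_filter, Fintype.mem_piFinset] at hv
    obtain ⟨⟨h1, h2⟩, h3⟩ := hv
    rw [Fin.prod_univ_succ, h3, ← hmx] at h2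
    have h4 : ∏ i : Fin k, v i.succ = m / x := by
      rw [hmx] at h2
      rw [← h2, Nat.mul_div_cancel_left _ (by omega)]
    rw [Finset.mem_coe, Finset.mem_filter, Fintype.mem_piFinset]
    refine ⟨fun i => ?_, h4⟩
    have h5 : v i.succ ∣ m / x := h4 ▸ Finset.dvd_prod_of_mem (fun i : Fin k => v i.succ) (Finset.mem_univ i)
    exact Finset.mem_Icc.2 ⟨(Finset.mem_Icc.1 (h1 i.succ)).1, Nat.le_of_dvd hq h5⟩
  · intro w hw
    rw [Finset.mem_coe, Finset.mem_filter, Fintype.mem_piFinset] at hw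
    rw [Finset.mem_coe, Finset.mem_filter, Finset.mem_filter, Fintype.mem_piFinset]
    refine ⟨⟨fun i => ?_, ?_⟩, ?_⟩
    · refine Fin.cases ?_ (fun j => ?_) i
      · exact Finset.mem_Icc.2 ⟨hx0, Nat.le_of_dvd hm hxm⟩
      · have := Finset.mem_Icc.1 (hw.1 j)
        exact Finset.mem_Icc.2 ⟨this.1, this.2.trans (Nat.div_le_self _ _)⟩
    · rw [Fin.prod_univ_succ]
      simp only [Fin.cons_zero, Fin.cons_succ]
      rw [hw.2, hmx]
    · rfl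
  · intro v hv
    rw [Finset.mem_coe, Finset.mem_filter] at hv
    rw [← hv.2]
    exact Fin.cons_self_tail v
  · intro w _
    exact Fin.tail_cons _ _

lemma gcd_decomp {d x y : ℕ} (hd : 0 < d) (hx : 0 < x) (hy : 0 < y) (h : d ∣ x * y) :
    ∃ g a b c : ℕ, 0 < g ∧ 0 < a ∧ 0 < b ∧ 0 < c ∧ Nat.gcd d x = g ∧ d = g * a ∧ x = g * b ∧ y = a * c := by
  have hg : 0 < Nat.gcd d x := Nat.gcd_pos_of_pos_left _ hd
  obtain ⟨a, ha⟩ := Nat.gcd_dvd_left d x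
  obtain ⟨b, hb⟩ := Nat.gcd_dvd_right d x
  generalize hG : Nat.gcd d x = g at *
  have ha0 : 0 < a := Nat.pos_of_ne_zero fun h0 => by rw [ha, h0, mul_zero] at hd; omega
  have hb0 : 0 < b := Nat.pos_of_ne_zero fun h0 => by rw [hb, h0, mul_zero] at hx; omega
  have e1 : d / g = a := by rw [ha, Nat.mul_div_cancel_left _ hg]
  have e2 : x / g = b := by rw [hb, Nat.mul_div_cancel_left _ hg]
  have hc : Nat.Coprime a b := by
    have := Nat.coprime_div_gcd_div_gcd (m := d) (n := x) (by rw [hG]; exact hg)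
    rwa [hG, e1, e2] at this
  have h3 : a ∣ b * y := by
    have : g * a ∣ g * (b * y) := by
      rw [← ha, ← mul_assoc, ← hb]
      exact h
    exact Nat.dvd_of_mul_dvd_mul_left hg this
  obtain ⟨c, hc2⟩ := hc.dvd_of_dvd_mul_left h3
  have hc0 : 0 < c := Nat.pos_of_ne_zero fun h0 => by rw [hc2, h0, mul_zero] at hy; omega
  exact ⟨g, a, b, c, hg, ha0, hb0, hc0, rfl, ha, hb, hc2⟩

lemma ak_mul_le (k : ℕ) : ∀ {x y : ℕ}, 1 ≤ x → 1 ≤ y → ak k (x * y) ≤ ak k x * ak k y := by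
  induction k with
  | zero =>
    intro x y hx hy
    rw [ak_zero, ak_zero, ak_zero]
    by_cases h : x * y = 1
    · rw [if_pos h, if_pos (Nat.eq_one_of_mul_eq_one_right h), if_pos (Nat.eq_one_of_mul_eq_one_left h)]
    · rw [if_neg h]
      exact Nat.zero_le _
  | succ k ih =>
    intro x y hx hy
    rw [ak_succ k (Nat.mul_pos hx hy), ak_succ k hx, ak_succ k hy, Finset.sum_mul_sum,
      ← Finset.sum_product']
    refine sum_le_of_inj _ _ _ _ (fun d => (Nat.gcd d x, d / Nat.gcd d x)) ?_ ?_ ?_ fun t _ => Nat.zero_le _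
    · intro d hd
      obtain ⟨g, a, b, c, hg, ha, hb, hc, hG, rfl, rfl, rfl⟩ :=
        gcd_decomp (Nat.pos_of_mem_divisors hd) hx hy (Nat.mem_divisors.1 hd).1
      rw [Finset.mem_product, Nat.mem_divisors, Nat.mem_divisors]
      simp only [hG]
      rw [Nat.mul_div_cancel_left _ hg]
      exact ⟨⟨Dvd.intro _ rfl, by positivity⟩, Dvd.intro _ rfl, by positivity⟩
    · intro d hd d' hd' h
      have h1 : Nat.gcd d x = Nat.gcd d' x := (Prod.ext_iff.1 h).1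
      have h2 : d / Nat.gcd d x = d' / Nat.gcd d' x := (Prod.ext_iff.1 h).2
      calc d = Nat.gcd d x * (d / Nat.gcd d x) := (Nat.mul_div_cancel' (Nat.gcd_dvd_left d x)).symm
        _ = Nat.gcd d' x * (d' / Nat.gcd d' x) := by rw [h2, h1]
        _ = d' := Nat.mul_div_cancel' (Nat.gcd_dvd_left d' x)
    · intro d hd
      obtain ⟨g, a, b, c, hg, ha, hb, hc, hG, rfl, rfl, rfl⟩ :=
        gcd_decomp (Nat.pos_of_mem_divisors hd) hx hy (Nat.mem_divisors.1 hd).1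
      simp only [hG]
      have e3 : g * b * (a * c) / (g * a) = b * c := by
        rw [show g * b * (a * c) = g * a * (b * c) by ring, Nat.mul_div_cancel_left _ (Nat.mul_pos hg ha)]
      rw [e3, Nat.mul_div_cancel_left _ hg, Nat.mul_div_cancel_left _ hg, Nat.mul_div_cancel_left _ ha]
      exact ih hb hc

/-! ## the sums -/

/-- `∑ d_k(m) m^(-s)` -/
noncomputable def Bs (k M : ℕ) (s : ℝ) : ℝ := ∑ m ∈ Icc 1 M, (ak k m : ℝ) * (m : ℝ) ^ (-s)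

/-- `∑ d_k(m)² m^(-s)` -/
noncomputable def As (k M : ℕ) (s : ℝ) : ℝ := ∑ m ∈ Icc 1 M, (ak k m : ℝ) ^ 2 * (m : ℝ) ^ (-s)

/-- `∑ m^(-s)` -/
noncomputable def Hs (M : ℕ) (s : ℝ) : ℝ := ∑ m ∈ Icc 1 M, (m : ℝ) ^ (-s)

lemma term_nonneg (m : ℕ) (s : ℝ) : 0 ≤ (m : ℝ) ^ (-s) := Real.rpow_nonneg (Nat.cast_nonneg _) _

lemma Bs_nonneg (k M : ℕ) (s : ℝ) : 0 ≤ Bs k M s :=
  Finset.sum_nonneg fun m _ => mul_nonneg (Nat.cast_nonneg _) (term_nonneg m s)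

lemma As_nonneg (k M : ℕ) (s : ℝ) : 0 ≤ As k M s :=
  Finset.sum_nonneg fun m _ => mul_nonneg (by positivity) (term_nonneg m s)

lemma Hs_nonneg (M : ℕ) (s : ℝ) : 0 ≤ Hs M s := Finset.sum_nonneg fun m _ => term_nonneg m s

lemma mul_pow_neg (x y : ℕ) (s : ℝ) : ((x * y : ℕ) : ℝ) ^ (-s) = (x : ℝ) ^ (-s) * (y : ℝ) ^ (-s) := by
  push_cast
  exact Real.mul_rpow (Nat.cast_nonneg _) (Nat.cast_nonneg _)

lemma Bs_succ (k M : ℕ) (s : ℝ) : Bs (k + 1) M s ≤ Hs M s * Bs k M s := by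
  unfold Bs Hs
  rw [Finset.sum_mul_sum, ← Finset.sum_product']
  have h1 : ∑ m ∈ Icc 1 M, (ak (k + 1) m : ℝ) * (m : ℝ) ^ (-s) =
      ∑ m ∈ Icc 1 M, ∑ x ∈ m.divisors, (ak k (m / x) : ℝ) * (m : ℝ) ^ (-s) := by
    refine Finset.sum_congr rfl fun m hm => ?_
    rw [ak_succ k (Finset.mem_Icc.1 hm).1, Nat.cast_sum, Finset.sum_mul]
  rw [h1, Finset.sum_sigma']
  refine sum_le_of_inj _ _ _ _ (fun p => (p.2, p.1 / p.2)) ?_ ?_ ?_ ?_
  · rintro ⟨m, x⟩ h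
    rw [Finset.mem_sigma, Nat.mem_divisors, Finset.mem_Icc] at h
    obtain ⟨⟨h1, h2⟩, h3, h4⟩ := h
    have hx := Nat.pos_of_dvd_of_pos h3 h1
    have hle := Nat.le_of_dvd h1 h3
    rw [Finset.mem_product, Finset.mem_Icc, Finset.mem_Icc]
    exact ⟨⟨hx, hle.trans h2⟩, Nat.div_pos hle hx, (Nat.div_le_self _ _).trans h2⟩
  · rintro ⟨m, x⟩ h ⟨m', x'⟩ h' e
    rw [Finset.mem_coe, Finset.mem_sigma, Nat.mem_divisors, Finset.mem_Icc] at h h'
    have e1 : x = x' := (Prod.ext_iff.1 e).1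
    have e2 : m / x = m' / x' := (Prod.ext_iff.1 e).2
    have e3 : m = m' := by
      calc m = x * (m / x) := (Nat.mul_div_cancel' h.2.1).symm
        _ = x' * (m' / x') := by rw [e2, e1]
        _ = m' := Nat.mul_div_cancel' h'.2.1
    rw [e1, e3]
  · rintro ⟨m, x⟩ h
    rw [Finset.mem_sigma, Nat.mem_divisors, Finset.mem_Icc] at h
    have e3 : m = x * (m / x) := (Nat.mul_div_cancel' h.2.1).symm
    have e4 : (m : ℝ) ^ (-s) = (x : ℝ) ^ (-s) * ((m / x : ℕ) : ℝ) ^ (-s) := by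
      rw [← mul_pow_neg, ← e3]
    show (ak k (m / x) : ℝ) * (m : ℝ) ^ (-s) ≤ (x : ℝ) ^ (-s) * ((ak k (m / x) : ℝ) * ((m / x : ℕ) : ℝ) ^ (-s))
    rw [e4]
    exact le_of_eq (by ring)
  · rintro ⟨x, w⟩ _
    exact mul_nonneg (term_nonneg _ _) (mul_nonneg (Nat.cast_nonneg _) (term_nonneg _ _))

lemma Bs_zero (M : ℕ) (s : ℝ) : Bs 0 M s ≤ 1 := by
  unfold Bs
  have h1 : ∀ m ∈ Icc 1 M, (ak 0 m : ℝ) * (m : ℝ) ^ (-s) = if m = 1 then 1 else 0 := by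
    intro m _
    rw [ak_zero]
    split_ifs with h
    · simp [h]
    · simp
  rw [Finset.sum_congr rfl h1, Finset.sum_ite_eq' (Icc 1 M) 1 (fun _ => (1 : ℝ))]
  split_ifs <;> norm_num

lemma As_zero (M : ℕ) (s : ℝ) : As 0 M s ≤ 1 := by
  unfold As
  have h1 : ∀ m ∈ Icc 1 M, (ak 0 m : ℝ) ^ 2 * (m : ℝ) ^ (-s) = if m = 1 then 1 else 0 := by
    intro m _
    rw [ak_zero]
    split_ifs with h
    · simp [h]
    · simp
  rw [Finset.sum_congr rfl h1, Finset.sum_ite_eq' (Icc 1 M) 1 (fun _ => (1 : ℝ))]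
  split_ifs <;> norm_num

lemma Bs_le (k M : ℕ) (s : ℝ) : Bs k M s ≤ Hs M s ^ k := by
  induction k with
  | zero => simpa using Bs_zero M s
  | succ k ih =>
    calc Bs (k + 1) M s ≤ Hs M s * Bs k M s := Bs_succ k M s
      _ ≤ Hs M s * Hs M s ^ k := mul_le_mul_of_nonneg_left ih (Hs_nonneg M s)
      _ = Hs M s ^ (k + 1) := by ring

/-- the decomposition of two divisors -/
lemma two_div {m x y : ℕ} (hm : 0 < m) (hx : x ∣ m) (hy : y ∣ m) :
    ∃ g a b w : ℕ, 0 < g ∧ 0 < a ∧ 0 < b ∧ 0 < w ∧ Nat.gcd x y = g ∧ x = g * a ∧ y = g * b ∧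
      m = g * a * b * w := by
  have hx0 := Nat.pos_of_dvd_of_pos hx hm
  have hy0 := Nat.pos_of_dvd_of_pos hy hm
  have hg : 0 < Nat.gcd x y := Nat.gcd_pos_of_pos_left _ hx0
  have hl := Nat.lcm_dvd hx hy
  obtain ⟨a, ha⟩ := Nat.gcd_dvd_left x y
  obtain ⟨b, hb⟩ := Nat.gcd_dvd_right x y
  obtain ⟨w, hw⟩ := hl
  have hlcm := Nat.gcd_mul_lcm x y
  generalize hG : Nat.gcd x y = g at *
  have ha0 : 0 < a := Nat.pos_of_ne_zero fun h0 => by rw [ha, h0, mul_zero] at hx0; omega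
  have hb0 : 0 < b := Nat.pos_of_ne_zero fun h0 => by rw [hb, h0, mul_zero] at hy0; omega
  have hw0 : 0 < w := Nat.pos_of_ne_zero fun h0 => by rw [hw, h0, mul_zero] at hm; omega
  have hL : Nat.lcm x y = g * a * b := by
    refine Nat.eq_of_mul_eq_mul_left hg ?_
    rw [hlcm]
    calc x * y = (g * a) * (g * b) := by rw [← ha, ← hb]
      _ = _ := by ring
  exact ⟨g, a, b, w, hg, ha0, hb0, hw0, rfl, ha, hb, by rw [← hL]; exact hw⟩

lemma As_succ (k M : ℕ) (s : ℝ) : As (k + 1) M s ≤ Hs M s * As k M s * (Bs k M s * Bs k M s) := by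
  have hR : Hs M s * As k M s * (Bs k M s * Bs k M s) =
      ∑ q ∈ (Icc 1 M ×ˢ Icc 1 M) ×ˢ (Icc 1 M ×ˢ Icc 1 M),
        ((q.1.1 : ℝ) ^ (-s) * ((ak k q.1.2 : ℝ) ^ 2 * (q.1.2 : ℝ) ^ (-s))) *
        (((ak k q.2.1 : ℝ) * (q.2.1 : ℝ) ^ (-s)) * ((ak k q.2.2 : ℝ) * (q.2.2 : ℝ) ^ (-s))) := by
    unfold Hs As Bs
    rw [Finset.sum_mul_sum, Finset.sum_mul_sum, ← Finset.sum_product', ← Finset.sum_product',
      Finset.sum_mul_sum, ← Finset.sum_product']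
  have h1 : As (k + 1) M s =
      ∑ m ∈ Icc 1 M, ∑ p ∈ m.divisors ×ˢ m.divisors,
        (ak k (m / p.1) : ℝ) * (ak k (m / p.2) : ℝ) * (m : ℝ) ^ (-s) := by
    unfold As
    refine Finset.sum_congr rfl fun m hm => ?_
    rw [ak_succ k (Finset.mem_Icc.1 hm).1, Nat.cast_sum, sq, Finset.sum_mul_sum, ← Finset.sum_product',
      Finset.sum_mul]
  rw [hR, h1, Finset.sum_sigma']
  have key : ∀ p : (Σ _ : ℕ, ℕ × ℕ), p ∈ (Icc 1 M).sigma (fun m => m.divisors ×ˢ m.divisors) →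
      ∃ g a b w : ℕ, 0 < g ∧ 0 < a ∧ 0 < b ∧ 0 < w ∧ Nat.gcd (g * a) (g * b) = g ∧ p.2.1 = g * a ∧
        p.2.2 = g * b ∧ p.1 = g * a * b * w ∧ p.1 ≤ M := by
    rintro ⟨m, x, y⟩ h
    rw [Finset.mem_sigma, Finset.mem_product, Nat.mem_divisors, Nat.mem_divisors, Finset.mem_Icc] at h
    obtain ⟨⟨h1, h2⟩, ⟨h3, _⟩, h4, _⟩ := h
    obtain ⟨g, a, b, w, hg, ha, hb, hw, e1, e2, e3, e4⟩ := two_div h1 h3 h4
    exact ⟨g, a, b, w, hg, ha, hb, hw, by rw [← e2, ← e3]; exact e1, e2, e3, e4, h2⟩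
  have val : ∀ g a b w : ℕ, 0 < g → 0 < a → 0 < b → 0 < w →
      g * a / g = a ∧ g * b / g = b ∧ g * a * b * w / (g * a * b) = w ∧
      g * a * b * w / (g * a) = b * w ∧ g * a * b * w / (g * b) = a * w := by
    intro g a b w hg ha hb hw
    refine ⟨Nat.mul_div_cancel_left _ hg, Nat.mul_div_cancel_left _ hg,
      Nat.mul_div_cancel_left _ (by positivity), ?_, ?_⟩
    · rw [show g * a * b * w = g * a * (b * w) by ring, Nat.mul_div_cancel_left _ (by positivity)]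
    · rw [show g * a * b * w = g * b * (a * w) by ring, Nat.mul_div_cancel_left _ (by positivity)]
  refine sum_le_of_inj _ _ _ _ (fun p => ((Nat.gcd p.2.1 p.2.2, p.1 / (Nat.gcd p.2.1 p.2.2 *
    (p.2.1 / Nat.gcd p.2.1 p.2.2) * (p.2.2 / Nat.gcd p.2.1 p.2.2))),
    (p.2.1 / Nat.gcd p.2.1 p.2.2, p.2.2 / Nat.gcd p.2.1 p.2.2))) ?_ ?_ ?_ ?_
  · intro p hp
    obtain ⟨g, a, b, w, hg, ha, hb, hw, e1, e2, e3, e4, h5⟩ := key p hp
    obtain ⟨v1, v2, v3, v4, v5⟩ := val g a b w hg ha hb hw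
    simp only [e1, e2, e3, e4, v1, v2, v3]
    simp only [Finset.mem_product, Finset.mem_Icc]
    have hm : 0 < p.1 := by rw [e4]; positivity
    have d1 : g ≤ M := (Nat.le_of_dvd hm ⟨a * b * w, by rw [e4]; ring⟩).trans h5
    have d2 : a ≤ M := (Nat.le_of_dvd hm ⟨g * b * w, by rw [e4]; ring⟩).trans h5
    have d3 : b ≤ M := (Nat.le_of_dvd hm ⟨g * a * w, by rw [e4]; ring⟩).trans h5
    have d4 : w ≤ M := (Nat.le_of_dvd hm ⟨g * a * b, by rw [e4]; ring⟩).trans h5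
    exact ⟨⟨⟨hg, d1⟩, hw, d4⟩, ⟨ha, d2⟩, hb, d3⟩
  · intro p hp p' hp' e
    obtain ⟨g, a, b, w, hg, ha, hb, hw, e1, e2, e3, e4, h5⟩ := key p hp
    obtain ⟨v1, v2, v3, v4, v5⟩ := val g a b w hg ha hb hw
    obtain ⟨g', a', b', w', hg', ha', hb', hw', e1', e2', e3', e4', h5'⟩ := key p' hp'
    obtain ⟨v1', v2', v3', v4', v5'⟩ := val g' a' b' w' hg' ha' hb' hw'
    simp only [e1, e2, e3, e4, v1, v2, v3, e1', e2', e3', e4', v1', v2', v3', Prod.mk.injEq] at e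
    obtain ⟨⟨rfl, rfl⟩, rfl, rfl⟩ := e
    obtain ⟨m, x, y⟩ := p
    obtain ⟨m', x', y'⟩ := p'
    simp only at e2 e3 e4 e2' e3' e4'
    rw [e2, e3, e4, e2', e3', e4']
  · intro p hp
    obtain ⟨g, a, b, w, hg, ha, hb, hw, e1, e2, e3, e4, h5⟩ := key p hp
    obtain ⟨v1, v2, v3, v4, v5⟩ := val g a b w hg ha hb hw
    simp only [e1, e2, e3, e4, v1, v2, v3, v4, v5]
    rw [mul_pow_neg, mul_pow_neg, mul_pow_neg]
    have i1 : (ak k (b * w) : ℝ) ≤ ak k b * ak k w := by exact_mod_cast ak_mul_le k hb hw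
    have i2 : (ak k (a * w) : ℝ) ≤ ak k a * ak k w := by exact_mod_cast ak_mul_le k ha hw
    have i3 : (ak k (b * w) : ℝ) * (ak k (a * w) : ℝ) ≤ (ak k b * ak k w) * (ak k a * ak k w) :=
      mul_le_mul i1 i2 (Nat.cast_nonneg _) (by positivity)
    calc (ak k (b * w) : ℝ) * (ak k (a * w) : ℝ) * ((g : ℝ) ^ (-s) * (a : ℝ) ^ (-s) * (b : ℝ) ^ (-s) * (w : ℝ) ^ (-s))
        ≤ (ak k b * ak k w) * (ak k a * ak k w) *
          ((g : ℝ) ^ (-s) * (a : ℝ) ^ (-s) * (b : ℝ) ^ (-s) * (w : ℝ) ^ (-s)) := by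
          refine mul_le_mul_of_nonneg_right i3 ?_
          have := term_nonneg g s
          have := term_nonneg a s
          have := term_nonneg b s
          have := term_nonneg w s
          positivity
      _ = _ := by ring
  · intro q _
    have := term_nonneg q.1.1 s
    have := term_nonneg q.1.2 s
    have := term_nonneg q.2.1 s
    have := term_nonneg q.2.2 s
    positivity

lemma As_le (k M : ℕ) (s Q : ℝ) (hQ : Hs M s ≤ Q) : As k M s ≤ Q ^ (k ^ 2) := by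
  have hQ0 : 0 ≤ Q := (Hs_nonneg M s).trans hQ
  induction k with
  | zero => simpa using As_zero M s
  | succ k ih =>
    have hB : Bs k M s ≤ Q ^ k := (Bs_le k M s).trans (pow_le_pow_left₀ (Hs_nonneg M s) hQ k)
    have hB0 := Bs_nonneg k M s
    have hA0 := As_nonneg k M s
    calc As (k + 1) M s ≤ Hs M s * As k M s * (Bs k M s * Bs k M s) := As_succ k M s
      _ ≤ Q * Q ^ (k ^ 2) * (Q ^ k * Q ^ k) := by
        gcongr
      _ = Q ^ ((k + 1) ^ 2) := by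
        rw [← pow_succ', ← pow_add, ← pow_add]
        congr 1
        ring

/-- job SQ -/
theorem sq : S_SQ :=
  ⟨dk_le_ak, fun k M s hs => As_le k M s _ (zsum M hs)⟩

end Pool.Agent.Q153.MK
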